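import Pool.Agent.H47.ST.Targets

namespace Pool.Agent.H72.STK

open Finset Pool.Agent.H47.ST

theorem hm_tops_append (A B : List (List ℕ)) : tops (A ++ B) = max (tops A) (tops B) := by
  induction A with
  | nil => simp [tops]
  | cons a A ih =>
    have h1 : tops (a :: A ++ B) = max (top 0 a) (tops (A ++ B)) := by simp [tops]
    have h2 : tops (a :: A) = max (top 0 a) (tops A) := by simp [tops]
    rw [h1, h2, ih, max_assoc]

theorem hm_tops_mir (h1 : T_TOP) (st : List (List ℕ)) : tops (mir st) = tops st := by
  unfold tops mir
  have h2 : ((st.map List.reverse).reverse).map (top 0) = (st.map (top 0)).reverse := by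
    rw [List.map_reverse, List.map_map]
    congr 1
    apply List.map_congr_left
    intro B _
    exact h1.2.2.1 B
  rw [h2]
  apply List.Perm.foldr_eq'
  · exact List.reverse_perm _
  · intro x _ y _ z
    exact max_left_comm _ _ _

theorem hm_mir_mir (st : List (List ℕ)) : mir (mir st) = st := by
  unfold mir
  rw [List.map_reverse, List.reverse_reverse, List.map_map]
  have : (List.reverse ∘ List.reverse : List ℕ → List ℕ) = id := by
    funext x
    simp
  rw [this, List.map_id]

theorem hm_mir_append (A B : List (List ℕ)) : mir (A ++ B) = mir B ++ mir A := by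
  unfold mir
  simp

theorem hm_aux (st : List (List ℕ)) : ∃ A C, st = A ++ C ∧ QQ 1 A ∧
    ∀ C1 C2 : List (List ℕ), C = C1 ++ C2 → C1 ≠ [] → tops C1 % 2 = 1 := by
  induction st using List.reverseRecOn with
  | nil =>
    refine ⟨[], [], rfl, ?_, ?_⟩
    · intro A1 A2 h h2
      rw [eq_comm, List.append_eq_nil_iff] at h
      exact absurd h.2 h2
    · intro C1 C2 h h2
      rw [eq_comm, List.append_eq_nil_iff] at h
      exact absurd h.1 h2
  | append_singleton st B ih =>
    obtain ⟨A, C, hst, hA, hC⟩ := ih
    by_cases hM : tops (C ++ [B]) % 2 = 1
    · refine ⟨A, C ++ [B], by rw [hst, List.append_assoc], hA, ?_⟩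
      intro C1 C2 h h2
      rcases List.eq_nil_or_concat C2 with h3 | ⟨C2', B', h3⟩
      · rw [h3, List.append_nil] at h
        rw [← h]
        exact hM
      · rw [h3, List.concat_eq_append, ← List.append_assoc] at h
        have h4 := List.append_inj_left' h rfl
        exact hC C1 C2' h4 h2
    · have hM0 : tops (C ++ [B]) % 2 = 0 := by omega
      refine ⟨(A ++ C) ++ [B], [], by rw [hst, List.append_nil], ?_, ?_⟩
      · intro A1 A2 h h2
        rcases List.eq_nil_or_concat A2 with h3 | ⟨A2', B', h3⟩
        · exact absurd h3 h2
        · rw [List.concat_eq_append] at h3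
          have h' := h
          rw [h3, ← List.append_assoc] at h
          have h4 := List.append_inj_left' h rfl
          have h5 := List.append_inj_right' h rfl
          rw [← h5] at h3
          have h0 : (1 - 1 : ℕ) = 0 := rfl
          rw [h0]
          rcases List.append_eq_append_iff.1 h4 with ⟨a', ha1, ha2⟩ | ⟨c', hc1, hc2⟩
          · by_cases ha : a' = []
            · rw [ha, List.nil_append] at ha2
              rw [h3, ← ha2]
              exact hM0
            · have h6 := hC a' A2' ha2 ha
              rw [ha2, List.append_assoc, hm_tops_append, ← h3] at hM0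
              rcases le_total (tops a') (tops A2) with h7 | h7
              · rw [max_eq_right h7] at hM0
                exact hM0
              · rw [max_eq_left h7] at hM0
                omega
          · rw [h3, hc2, List.append_assoc, hm_tops_append]
            have h6 : tops c' % 2 = 0 := by
              by_cases hc : c' = []
              · rw [hc]
                simp [tops]
              · exact hA A1 c' hc1 hc
            rcases le_total (tops c') (tops (C ++ [B])) with h7 | h7
            · rw [max_eq_right h7]
              exact hM0
            · rw [max_eq_left h7]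
              exact h6
      · intro C1 C2 h h2
        rw [eq_comm, List.append_eq_nil_iff] at h
        exact absurd h.1 h2

theorem pf_HM (h1 : T_TOP) : T_HM := by
  intro st
  obtain ⟨A, C, hst, hA, hC⟩ := hm_aux st
  refine ⟨A, C, hst, hA, ?_⟩
  intro A1 A2 h h2
  have h3 : C = mir A2 ++ mir A1 := by
    rw [← hm_mir_append, ← h, hm_mir_mir]
  have h4 : mir A2 ≠ [] := by
    intro h5
    apply h2
    rw [← hm_mir_mir A2, h5]
    rfl
  have h6 := hC (mir A2) (mir A1) h3 h4
  rw [hm_tops_mir h1] at h6
  exact h6

end Pool.Agent.H72.STK
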