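import Pool.Agent.H47.ST.Targets

namespace Pool.Agent.H72.STK

open Finset Pool.Agent.H47.ST

theorem ip_pops_append (h1 : T_TOP) (e : ℕ) (A B : List (List ℕ)) : ∀ h : ℕ,
    pops e h (A ++ B) = pops e h A ∪ pops e (max h (tops A)) B := by
  induction A with
  | nil =>
    intro h
    simp [pops, tops]
  | cons a A ih =>
    intro h
    have h2 : max (top h a) (tops A) = max h (tops (a :: A)) := by
      have h3 : tops (a :: A) = max (top 0 a) (tops A) := by simp [tops]
      rw [h1.1 h a, h3, max_assoc]
    rw [List.cons_append, pops, pops, ih, h2, Finset.union_assoc]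

theorem ip_tops_mir (h1 : T_TOP) (st : List (List ℕ)) : tops (mir st) = tops st := by
  unfold tops mir
  have h2 : ((st.map List.reverse).reverse).map (top 0) = (st.map (top 0)).reverse := by
    rw [List.map_reverse, List.map_map]
    congr 1
    apply List.map_congr_left
    intro B _
    exact h1.2.2.1 B
  rw [h2]
  apply List.Perm.foldr_eq'
  · exact List.reverse_perm _
  · intro x _ y _ z
    exact max_left_comm _ _ _

theorem ip_mir (Ls Rs : List (List ℕ)) (B : List ℕ) :
    mir (Ls ++ B :: Rs) = mir Rs ++ B.reverse :: mir Ls := by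
  unfold mir
  simp

theorem ip_top_cons (h1 : T_TOP) (r : ℕ) (P : List ℕ) :
    top 0 (r :: P) = max (r + 1) (top 0 P) := by
  rw [top, h1.1, Nat.zero_max]

theorem ip_vis_append (h1 : T_TOP) (e c : ℕ) (Q : List ℕ) : ∀ (P : List ℕ) (h : ℕ),
    c ∈ vis e h (P ++ Q) → c < top 0 P ∨ c ∈ vis e (max h (top 0 P)) Q := by
  intro P
  induction P with
  | nil =>
    intro h hc
    right
    simpa [top] using hc
  | cons r P ih =>
    intro h hc
    rw [ip_top_cons h1]
    rw [List.cons_append, vis] at hc
    by_cases hr : h ≤ r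
    · rw [if_pos hr, Finset.mem_union] at hc
      rcases hc with hc | hc
      · split_ifs at hc with h2
        · rw [Finset.mem_singleton] at hc
          left
          omega
        · simp at hc
      · rcases ih _ hc with h3 | h3
        · left
          omega
        · right
          have h4 : max h (max (r + 1) (top 0 P)) = max (r + 1) (top 0 P) := by omega
          rw [h4]
          exact h3
    · rw [if_neg hr] at hc
      rcases ih _ hc with h3 | h3
      · left
        omega
      · right
        have h4 : max h (max (r + 1) (top 0 P)) = max h (top 0 P) := by omega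
        rw [h4]
        exact h3

theorem ip_vis_mem (h1 : T_TOP) (e : ℕ) (Q : List ℕ) : ∀ (P : List ℕ) (h : ℕ),
    1 ≤ top 0 P → (top 0 P - 1) % 2 = e → h ≤ top 0 P - 1 → top 0 P < top 0 Q →
    top 0 P - 1 ∈ vis e h (P ++ Q) := by
  intro P
  induction P with
  | nil =>
    intro h h2
    simp [top] at h2
  | cons r P ih =>
    intro h h2 h3 h4 h5
    rw [ip_top_cons h1] at h2 h3 h4 h5 ⊢
    rw [List.cons_append, vis]
    by_cases hP : top 0 P ≤ r + 1
    · have h6 : max (r + 1) (top 0 P) = r + 1 := by omega
      rw [h6] at h3 h4 h5 ⊢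
      have h7 : h ≤ r := by omega
      rw [if_pos h7, Finset.mem_union]
      left
      have h8 : r % 2 = e ∧ r + 1 < top 0 (P ++ Q) := by
        refine ⟨by simpa using h3, ?_⟩
        rw [h1.2.1]
        exact lt_of_lt_of_le h5 (le_max_right _ _)
      rw [if_pos h8]
      simp
    · have h6 : max (r + 1) (top 0 P) = top 0 P := by omega
      rw [h6] at h2 h3 h4 h5 ⊢
      by_cases hr : h ≤ r
      · rw [if_pos hr, Finset.mem_union]
        right
        exact ih (r + 1) h2 h3 (by omega) h5
      · rw [if_neg hr]
        exact ih h h2 h3 h4 h5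

theorem pf_IP (h1 : T_TOP) (h2 : T_PO) : T_IP := by
  intro e Ls X Y Rs C he hQ hh hY1 hY2
  obtain ⟨hXY, hRY⟩ := hh
  have hYr : top 0 Y.reverse = top 0 Y := h1.2.2.1 Y
  have hXr : top 0 X.reverse = top 0 X := h1.2.2.1 X
  have hBr : (X ++ Y).reverse = Y.reverse ++ X.reverse := List.reverse_append
  have hH : tops Rs ≤ top 0 Y - 1 := by
    by_cases hR : Rs = []
    · rw [hR]
      simp [tops]
    · have h3 := hQ (Ls ++ [X ++ Y]) Rs (by simp) hR
      have h4 : tops Rs ≠ top 0 Y := by
        intro h5
        rw [h5] at h3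
        omega
      omega
  have hmain : pops (1 - e) 0 (mir (Ls ++ (X ++ Y) :: Rs)) = pops (1 - e) 0 (mir Rs) ∪
      (vis (1 - e) (tops Rs) (Y.reverse ++ X.reverse) ∪ pops (1 - e) (top 0 X) (mir Ls)) := by
    rw [ip_mir, ip_pops_append h1, Nat.zero_max, ip_tops_mir h1, pops, hBr]
    have h6 : top (tops Rs) (Y.reverse ++ X.reverse) = top 0 X := by
      rw [h1.1, h1.2.1, hYr, hXr]
      omega
    rw [h6]
  refine ⟨?_, ?_⟩
  · rw [hmain, Finset.mem_union, Finset.mem_union]
    right
    left
    have h7 := ip_vis_mem h1 (1 - e) X.reverse Y.reverse (tops Rs) (by omega)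
      (by rw [hYr]; omega) (by omega) (by omega)
    rw [hYr] at h7
    exact h7
  · have hsub : (pops (1 - e) 0 (mir (Ls ++ (X ++ Y) :: Rs)) ∪ pops e 0 C).filter
        (fun c => top 0 Y - 1 < c) ⊆ (pops (1 - e) (top 0 X) (mir Ls) ∪
          vis (1 - e) (top 0 Y) X.reverse) ∪ pops e (top 0 Y) (Rs ++ C) := by
      intro c hc
      rw [Finset.mem_filter, Finset.mem_union, hmain, Finset.mem_union, Finset.mem_union] at hc
      obtain ⟨hc1, hc2⟩ := hc
      have hc3 : top 0 Y ≤ c := by omega
      rw [Finset.mem_union, Finset.mem_union]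
      rcases hc1 with (hc1 | hc1 | hc1) | hc1
      · have h8 := (h2 (1 - e) 0 (mir Rs)).2.2 c hc1
        rw [ip_tops_mir h1] at h8
        omega
      · left
        right
        rcases ip_vis_append h1 (1 - e) c X.reverse Y.reverse (tops Rs) hc1 with h9 | h9
        · omega
        · have h10 : max (tops Rs) (top 0 Y.reverse) = top 0 Y := by omega
          rw [h10] at h9
          exact h9
      · left
        left
        exact hc1
      · right
        rw [ip_pops_append h1, Finset.mem_union]
        right
        have h11 : max (top 0 Y) (tops Rs) = top 0 Y := by omega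
        rw [h11, (h2 e (top 0 Y) C).1, Finset.mem_filter]
        exact ⟨hc1, hc3⟩
    calc _ ≤ ((pops (1 - e) (top 0 X) (mir Ls) ∪ vis (1 - e) (top 0 Y) X.reverse) ∪
          pops e (top 0 Y) (Rs ++ C)).card := Finset.card_le_card hsub
      _ ≤ (pops (1 - e) (top 0 X) (mir Ls) ∪ vis (1 - e) (top 0 Y) X.reverse).card +
          (pops e (top 0 Y) (Rs ++ C)).card := Finset.card_union_le _ _
      _ ≤ _ := Nat.add_le_add_right (Finset.card_union_le _ _) _

end Pool.Agent.H72.STK
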